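import Mathlib

set_option autoImplicit false

namespace Pool.Agent.Results.MP_54bae5_nt.Equivalence

open Finset

/-- `q` is the sum of the reciprocals of the elements of a finite nonempty set of positive
integers contained in `A`. -/
def Rep (A : Set ℕ) (q : ℚ) : Prop :=
  ∃ F : Finset ℕ, F.Nonempty ∧ (∀ a ∈ F, 0 < a ∧ a ∈ A) ∧ ∑ a ∈ F, (1 : ℚ) / a = q

/-- The statement of Q1: for every colouring of the positive integers with finitely many colours
some colour class represents every positive rational. -/
def Q1 : Prop :=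
  ∀ (k : ℕ) (c : ℕ → Fin k), ∃ i, ∀ q : ℚ, 0 < q → Rep {n | c n = i} q

/-- For every colouring of the integers `≥ 2` with finitely many colours, `1` is a sum of
reciprocals of finitely many distinct integers `≥ 2` of one colour. -/
def UnitFractionColouring : Prop :=
  ∀ (k : ℕ) (c : ℕ → Fin k), ∃ (i : Fin k) (F : Finset ℕ), (∀ a ∈ F, 2 ≤ a ∧ c a = i) ∧
    ∑ a ∈ F, (1 : ℚ) / a = 1

theorem far (h : UnitFractionColouring) (k : ℕ) (c : ℕ → Fin k) (N : ℕ) :
    ∃ (i : Fin k) (F : Finset ℕ), (∀ a ∈ F, N < a ∧ c a = i) ∧ ∑ a ∈ F, (1 : ℚ) / a = 1 := by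
  classical
  obtain ⟨i, F, hF, hsum⟩ := h (k + (N + 1)) fun n =>
    if hn : n ≤ N then Fin.natAdd k ⟨n, by omega⟩ else Fin.castAdd (N + 1) (c n)
  have hne : F.Nonempty := by
    rw [nonempty_iff_ne_empty]
    rintro rfl
    simp at hsum
  by_cases hsmall : ∃ a ∈ F, a ≤ N
  · exfalso
    obtain ⟨a, ha, haN⟩ := hsmall
    have hall : ∀ b ∈ F, b = a := by
      intro b hb
      have h1 := (hF a ha).2
      have h2 := (hF b hb).2
      rw [dif_pos haN] at h1
      by_cases hbN : b ≤ N
      · rw [dif_pos hbN, ← h1] at h2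
        have h3 := congrArg Fin.val h2
        simp only [Fin.val_natAdd] at h3
        omega
      · rw [dif_neg hbN, ← h1] at h2
        have h3 := congrArg Fin.val h2
        simp only [Fin.val_natAdd, Fin.val_castAdd] at h3
        have := (c b).isLt
        omega
    have hFa : F = {a} := by
      ext b
      rw [mem_singleton]
      exact ⟨hall b, fun hb => hb ▸ ha⟩
    rw [hFa, sum_singleton] at hsum
    have h2 := (hF a ha).1
    have h2' : (2 : ℚ) ≤ a := by exact_mod_cast h2
    rw [div_eq_one_iff_eq (by linarith)] at hsum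
    linarith
  · push Not at hsmall
    obtain ⟨a, ha⟩ := hne
    refine ⟨c a, F, fun b hb => ⟨hsmall b hb, ?_⟩, hsum⟩
    have h1 := (hF a ha).2
    have h2 := (hF b hb).2
    rw [dif_neg (by have := hsmall a ha; omega)] at h1
    rw [dif_neg (by have := hsmall b hb; omega), ← h1] at h2
    exact Fin.castAdd_injective _ _ h2

theorem scaled (h : UnitFractionColouring) (k : ℕ) (c : ℕ → Fin k) (b : ℕ) (hb : 0 < b) (N : ℕ) :
    ∃ (i : Fin k) (F : Finset ℕ), F.Nonempty ∧ (∀ a ∈ F, N < a ∧ c a = i) ∧
      ∑ a ∈ F, (1 : ℚ) / a = 1 / b := by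
  classical
  obtain ⟨i, F, hF, hsum⟩ := far h k (fun n => c (b * n)) N
  have hne : F.Nonempty := by
    rw [nonempty_iff_ne_empty]
    rintro rfl
    simp at hsum
  refine ⟨i, F.image (fun n => b * n), hne.image _, ?_, ?_⟩
  · intro a ha
    rw [mem_image] at ha
    obtain ⟨n, hn, rfl⟩ := ha
    refine ⟨lt_of_lt_of_le (hF n hn).1 (Nat.le_mul_of_pos_left n hb), (hF n hn).2⟩
  · rw [sum_image (fun x _ y _ hxy => Nat.eq_of_mul_eq_mul_left hb hxy)]
    have : ∀ n ∈ F, (1 : ℚ) / ((b * n : ℕ) : ℚ) = (1 / b) * ((1 : ℚ) / n) := by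
      intro n _
      push_cast
      rw [one_div, one_div, one_div, mul_inv]
    rw [sum_congr rfl this, ← mul_sum, hsum, mul_one]

/-- Q1 is equivalent to the statement that every finite colouring of the integers `≥ 2` has a
monochromatic representation of `1` as a sum of distinct unit fractions. -/
theorem result : Q1 ↔ UnitFractionColouring := by
  classical
  constructor
  · intro h k c
    obtain ⟨i, hi⟩ := h (k + 1) fun n => if n ≤ 1 then Fin.last k else Fin.castSucc (c n)
    obtain ⟨F, hne, hF, hsum⟩ := hi 1 one_pos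
    have hilast : i ≠ Fin.last k := by
      rintro rfl
      obtain ⟨G, hGne, hG, hGsum⟩ := hi 2 two_pos
      have hall : ∀ a ∈ G, a = 1 := by
        intro a ha
        have h1 := hG a ha
        by_contra hne1
        have h2 : ¬ a ≤ 1 := by omega
        have h3 := h1.2
        simp only [Set.mem_ofPred_eq, if_neg h2] at h3
        exact (Fin.castSucc_lt_last (c a)).ne h3
      have hG1 : G ⊆ {1} := fun a ha => mem_singleton.2 (hall a ha)
      have hle : ∑ a ∈ G, (1 : ℚ) / a ≤ ∑ a ∈ ({1} : Finset ℕ), (1 : ℚ) / a :=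
        sum_le_sum_of_subset_of_nonneg hG1 fun _ _ _ => by positivity
      rw [hGsum, sum_singleton] at hle
      norm_num at hle
    have hbig : ∀ a ∈ F, 2 ≤ a := by
      intro a ha
      by_contra hlt
      have h2 : a ≤ 1 := by omega
      have h3 := (hF a ha).2
      simp only [Set.mem_ofPred_eq, if_pos h2] at h3
      exact hilast h3.symm
    obtain ⟨a₀, ha₀⟩ := hne
    refine ⟨c a₀, F, fun a ha => ⟨hbig a ha, ?_⟩, hsum⟩
    have h1 := (hF a ha).2
    have h2 := (hF a₀ ha₀).2
    have e1 : ¬ a ≤ 1 := by have := hbig a ha; omega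
    have e2 : ¬ a₀ ≤ 1 := by have := hbig a₀ ha₀; omega
    simp only [Set.mem_ofPred_eq, if_neg e1] at h1
    simp only [Set.mem_ofPred_eq, if_neg e2] at h2
    exact Fin.castSucc_injective _ (h1.trans h2.symm)
  · intro h k c
    by_contra hcon
    push Not at hcon
    choose q hq0 hq using hcon
    set b : ℕ := ∏ i, (q i).den with hb
    have hbpos : 0 < b := prod_pos fun i _ => (q i).den_pos
    choose col F hFne hF hFsum using scaled h k c b hbpos
    have hpig : ∃ i, ∀ N₀ : ℕ, ∃ N, N₀ ≤ N ∧ col N = i := by
      by_contra hno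
      push Not at hno
      choose M hM using hno
      exact hM (col (univ.sup M)) (univ.sup M) (le_sup (mem_univ _)) rfl
    obtain ⟨i, hi⟩ := hpig
    have hrep : ∀ m : ℕ, 0 < m → Rep {n | c n = i} ((m : ℚ) / b) := by
      intro m hm
      induction m with
      | zero => omega
      | succ m ih =>
        rcases Nat.eq_zero_or_pos m with rfl | hmpos
        · obtain ⟨N, _, hN⟩ := hi 0
          refine ⟨F N, hFne N, fun a ha => ⟨?_, ?_⟩, ?_⟩
          · have := (hF N a ha).1; omega
          · exact (hF N a ha).2.trans hN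
          · rw [hFsum]; simp
        · obtain ⟨G, hGne, hG, hGsum⟩ := ih hmpos
          obtain ⟨N, hN0, hN⟩ := hi (G.sup id)
          have hdisj : Disjoint G (F N) := by
            rw [disjoint_left]
            intro a ha ha'
            have h1 : a ≤ G.sup id := le_sup (f := id) ha
            have h2 := (hF N a ha').1
            omega
          refine ⟨G ∪ F N, hGne.mono subset_union_left, fun a ha => ?_, ?_⟩
          · rcases mem_union.1 ha with h1 | h1
            · exact hG a h1
            · refine ⟨?_, (hF N a h1).2.trans hN⟩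
              have := (hF N a h1).1; omega
          · rw [sum_union hdisj, hGsum, hFsum]
            push_cast
            ring
    apply hq i
    have hdvd : (q i).den ∣ b := dvd_prod_of_mem _ (mem_univ i)
    obtain ⟨t, ht⟩ := hdvd
    have hnum : 0 < (q i).num := Rat.num_pos.2 (hq0 i)
    have htpos : 0 < t := by
      rcases Nat.eq_zero_or_pos t with rfl | h1
      · rw [mul_zero] at ht; omega
      · exact h1
    have hmpos : 0 < (q i).num.toNat * t := by
      have : 0 < (q i).num.toNat := by omega
      positivity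
    have hfin := hrep ((q i).num.toNat * t) hmpos
    have hval : (((q i).num.toNat * t : ℕ) : ℚ) / b = q i := by
      rw [ht]
      have hden : ((q i).den : ℚ) ≠ 0 := by exact_mod_cast (q i).den_pos.ne'
      have ht0 : (t : ℚ) ≠ 0 := by exact_mod_cast htpos.ne'
      have hcast : (((q i).num.toNat : ℕ) : ℚ) = ((q i).num : ℚ) := by
        have : (((q i).num.toNat : ℕ) : ℤ) = (q i).num := Int.toNat_of_nonneg hnum.le
        exact_mod_cast congrArg (fun z : ℤ => (z : ℚ)) this
      push_cast
      rw [hcast]
      rw [mul_div_mul_right _ _ ht0]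
      exact Rat.num_div_den (q i)
    rwa [hval] at hfin

end Pool.Agent.Results.MP_54bae5_nt.Equivalence
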